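import Pool.Agent.R963.Inv.Fin

/-!
# MP_dbe012_pr, Q1: background noise does not reverse third degree inverse dominance

All notions depend on the laws only, so random variables are represented by probability measures
on `ℝ`; the law of `X + Z` is the convolution.
-/

namespace Pool.Agent.Results.MP_dbe012_pr.NoNoiseDegreeThree

open MeasureTheory ProbabilityTheory Set

/-- The quantile function `F⁻¹(p) = inf {x | p ≤ F x}` of the law `μ`. -/
noncomputable def quant (μ : Measure ℝ) (p : ℝ) : ℝ := sInf {x : ℝ | p ≤ cdf μ x}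

/-- The functions `F^{[-n]}`: `F^{[-1]} = F⁻¹` and `F^{[-n]} p = ∫_0^p F^{[-(n-1)]} u du` for
`n ≥ 2` (the value at `n = 0` is irrelevant). -/
noncomputable def iq (μ : Measure ℝ) : ℕ → ℝ → ℝ
  | 0 => fun _ => 0
  | 1 => quant μ
  | n + 2 => fun p => ∫ u in (0 : ℝ)..p, iq μ (n + 1) u

/-- `X <_n^- Y` for the laws `μ` of `X` and `ν` of `Y`. -/
def StrictInvDom (n : ℕ) (μ ν : Measure ℝ) : Prop :=
  (∀ p ∈ Ioo (0 : ℝ) 1, iq μ n p ≤ iq ν n p) ∧ ∃ p ∈ Ioo (0 : ℝ) 1, iq μ n p < iq ν n p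

/-- The mean `μ_{1:k} = k ∫_0^1 F⁻¹(u) (1 - u)^(k-1) du` of the minimum of `k ≥ 1` independent
copies. -/
noncomputable def minMean (μ : Measure ℝ) (k : ℕ) : ℝ :=
  k * ∫ u in (0 : ℝ)..1, quant μ u * (1 - u) ^ (k - 1)

/-- The law `μ` is a probability law of an integrable random variable. -/
def IsL1Law (μ : Measure ℝ) : Prop := IsProbabilityMeasure μ ∧ Integrable (fun x => x) μ

/-- The statement of Q1 for the degree `n`: whenever `μ_{1:k}` agree for `k = 1, …, n - 1` and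
`μ^X_{1:n} > μ^Y_{1:n}`, some integrable independent noise gives `X + Z <_n^- Y + Z`. -/
def NoiseStatement (n : ℕ) : Prop :=
  ∀ μ ν : Measure ℝ, IsL1Law μ → IsL1Law ν →
    (∀ k, 1 ≤ k → k ≤ n - 1 → minMean μ k = minMean ν k) → minMean ν n < minMean μ n →
    ∃ ζ : Measure ℝ, IsL1Law ζ ∧ StrictInvDom n (μ ∗ ζ) (ν ∗ ζ)

lemma iq_eq (μ : Measure ℝ) : ∀ n, iq μ n = Pool.Agent.R963.Inv.iq μ n
  | 0 => rfl
  | 1 => rfl
  | n + 2 => by
    funext p
    change ∫ u in (0 : ℝ)..p, iq μ (n + 1) u = ∫ u in (0 : ℝ)..p, Pool.Agent.R963.Inv.iq μ (n + 1) u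
    rw [iq_eq μ (n + 1)]

/-- The statement fails already for `n = 3`; in particular Q1 (which asks for all `n > 2`) has a
negative answer. -/
theorem result : ¬ NoiseStatement 3 ∧ ¬ ∀ n : ℕ, 2 < n → NoiseStatement n := by
  have key : ¬ NoiseStatement 3 := by
    intro h
    obtain ⟨ζ, ⟨hζ1, hζ2⟩, hdom, -⟩ := h (Pool.Agent.R963.Inv.muX Pool.Agent.R963.Inv.LL)
      Pool.Agent.R963.Inv.muY ⟨inferInstance, Pool.Agent.R963.Inv.integrable_X _⟩
      ⟨inferInstance, Pool.Agent.R963.Inv.integrable_Y⟩ (by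
        intro k hk1 hk2
        have hk : k = 1 ∨ k = 2 := by omega
        rcases hk with rfl | rfl
        · exact Pool.Agent.R963.Inv.minMean_one
        · exact Pool.Agent.R963.Inv.minMean_two) Pool.Agent.R963.Inv.minMean_three
    refine Pool.Agent.R963.Inv.no_noise hζ2 (fun p hp => ?_)
    rw [← iq_eq, ← iq_eq]
    exact hdom p hp
  exact ⟨key, fun h => key (h 3 (by norm_num))⟩

end Pool.Agent.Results.MP_dbe012_pr.NoNoiseDegreeThree
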